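import Mathlib
import Pool.Agent.H56.OrthoT1.Main

set_option autoImplicit false

namespace Pool.Agent.Results.MP_adc54a_gt.TOneCounterexample

open Set

/-- A family `V` of subsets of a space is interior-preserving if for every subfamily `W` the
interior of the intersection of `W` is the intersection of the interiors. -/
def InteriorPreserving {X : Type} [TopologicalSpace X] (V : Set (Set X)) : Prop :=
  ∀ W : Set (Set X), W ⊆ V → interior (⋂ w ∈ W, w) = ⋂ w ∈ W, interior w

/-- A space is orthocompact if every open cover has an interior-preserving open refinement. -/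
def Orthocompact (X : Type) [TopologicalSpace X] : Prop :=
  ∀ U : Set (Set X), (∀ u ∈ U, IsOpen u) → ⋃₀ U = univ →
    ∃ V : Set (Set X), (∀ v ∈ V, IsOpen v) ∧ ⋃₀ V = univ ∧ (∀ v ∈ V, ∃ u ∈ U, v ⊆ u) ∧
      InteriorPreserving V

/-- A closed mapping: a continuous surjection that sends closed sets to closed sets. -/
def ClosedMapping {X Y : Type} [TopologicalSpace X] [TopologicalSpace Y] (f : X → Y) : Prop :=
  Continuous f ∧ Function.Surjective f ∧ ∀ K : Set X, IsClosed K → IsClosed (f '' K)

theorem interiorPreserving_iff {X : Type} [TopologicalSpace X] {V : Set (Set X)}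
    (hV : ∀ v ∈ V, IsOpen v) : InteriorPreserving V ↔ ∀ W ⊆ V, IsOpen (⋂₀ W) := by
  have key : ∀ W ⊆ V, (⋂ w ∈ W, interior w) = ⋂₀ W := by
    intro W hW
    rw [sInter_eq_biInter]
    exact iInter₂_congr fun w hw => (hV w (hW hw)).interior_eq
  constructor
  · intro h W hW
    rw [← key W hW, ← h W hW]
    exact isOpen_interior
  · intro h W hW
    rw [key W hW, ← sInter_eq_biInter]
    exact (h W hW).interior_eq

theorem orthocompact_iff (X : Type) [TopologicalSpace X] : Orthocompact X ↔
    ∀ U : Set (Set X), (∀ u ∈ U, IsOpen u) → ⋃₀ U = univ →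
      ∃ V : Set (Set X), (∀ v ∈ V, IsOpen v) ∧ ⋃₀ V = univ ∧ (∀ v ∈ V, ∃ u ∈ U, v ⊆ u) ∧
        ∀ W ⊆ V, IsOpen (⋂₀ W) := by
  constructor
  · intro h U h1 h2
    obtain ⟨V, h3, h4, h5, h6⟩ := h U h1 h2
    exact ⟨V, h3, h4, h5, (interiorPreserving_iff h3).1 h6⟩
  · intro h U h1 h2
    obtain ⟨V, h3, h4, h5, h6⟩ := h U h1 h2
    exact ⟨V, h3, h4, h5, (interiorPreserving_iff h3).2 h6⟩

open Pool.Agent.H41.Ortho Pool.Agent.H56.OrthoT1

/-- The datum which a given diagonal point does not respect. -/
theorem exists_not_mem_CQ (d : DD) : ∃ Q : GD, d ∉ CQ Q := by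
  let Q : GD := fun k =>
    { F := fun a => {(a, (d.A k).sup Prod.snd + 1)}
      h := fun _ => 0
      ok := by
        intro a j hj
        rw [Finset.mem_singleton] at hj
        right
        rw [hj] }
  refine ⟨Q, ?_⟩
  rintro ⟨k0, hk0⟩
  have h := hk0 k0 le_rfl
  obtain ⟨b, -, hb⟩ := (Q k0).O_sub (d.s k0) (d.hs k0) (d.y k0)
  have hmem : (b, (d.A k0).sup Prod.snd + 1) ∈ (Q k0).F b := Finset.mem_singleton_self _
  have hA := h _ (hb hmem)
  have := Finset.le_sup (f := Prod.snd) hA
  simp only at this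
  omega

instance instT1X : T1Space XX := by
  refine ⟨fun z => ?_⟩
  rw [← isOpen_compl_iff, isOpen_X]
  constructor
  · intro k a i hi hm
    cases z with
    | p k' a' i' hi' =>
      refine ⟨∅, a' + 1, Set.univ, by simp, FF_univ, ?_⟩
      intro x hx hxz
      rw [mem_singleton_iff] at hxz
      subst hxz
      obtain ⟨h1, h2, h3⟩ := hx
      rcases h3 with h3 | h3
      · subst h1; subst h2; subst h3
        exact hm rfl
      · omega
    | d d' =>
      obtain ⟨Q, hQ⟩ := exists_not_mem_CQ d'
      refine ⟨∅, 0, CQ Q, by simp, FF_CQ Q, ?_⟩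
      intro x hx hxz
      rw [mem_singleton_iff] at hxz
      subst hxz
      exact hQ hx.1
    | e d' k' j' =>
      obtain ⟨Q, hQ⟩ := exists_not_mem_CQ d'
      refine ⟨∅, 0, CQ Q, by simp, FF_CQ Q, ?_⟩
      intro x hx hxz
      rw [mem_singleton_iff] at hxz
      subst hxz
      exact hQ hx.1
  · intro d hm
    cases z with
    | p k' a' i' hi' =>
      refine ⟨0, ?_⟩
      intro x hx hxz
      rw [mem_singleton_iff] at hxz
      subst hxz
      exact hx
    | d d' =>
      refine ⟨0, ?_⟩
      intro x hx hxz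
      rw [mem_singleton_iff] at hxz
      subst hxz
      rw [ND_d] at hx
      exact hm (by rw [hx]; rfl)
    | e d' k' j' =>
      refine ⟨k' + 1, ?_⟩
      intro x hx hxz
      rw [mem_singleton_iff] at hxz
      subst hxz
      rw [ND_e] at hx
      omega

instance instT1Y : T1Space YY := by
  refine ⟨fun y => ?_⟩
  obtain ⟨x, rfl⟩ := ff_surjective y
  rw [← image_singleton]
  exact ff_closed _ isClosed_singleton

theorem result : ∃ (X Y : Type) (_ : TopologicalSpace X) (_ : TopologicalSpace Y) (f : X → Y),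
    T1Space X ∧ T1Space Y ∧ ClosedMapping f ∧ (∀ y : Y, (f ⁻¹' {y}).Finite) ∧
      Orthocompact X ∧ ¬ Orthocompact Y := by
  refine ⟨XX, YY, inferInstance, inferInstance, ff, inferInstance, inferInstance,
    ⟨ff_continuous, ff_surjective, ff_closed⟩, ff_finite, ?_, ?_⟩
  · rw [orthocompact_iff]
    exact X_ortho
  · rw [orthocompact_iff]
    exact Y_not_ortho

end Pool.Agent.Results.MP_adc54a_gt.TOneCounterexample
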